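import Mathlib

open Matrix Module
open scoped Kronecker

namespace LSThreshold

variable {K : Type*} [Field K]

/-- The space of intertwiners of `D` and `E` is small. -/
theorem finrank_intertwiner_le {U V : Type*} [AddCommGroup U] [Module K U] [FiniteDimensional K U]
    [AddCommGroup V] [Module K V] [FiniteDimensional K V] (D : U →ₗ[K] U) (E : V →ₗ[K] V)
    (H : Submodule K (U →ₗ[K] V)) (hH : ∀ X ∈ H, E ∘ₗ X = X ∘ₗ D) :
    finrank K H ≤ finrank K (LinearMap.range D) * finrank K (LinearMap.range E)
      + (finrank K U - finrank K (LinearMap.range D))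
        * (finrank K V - finrank K (LinearMap.range E)) := by
  classical
  -- restriction to the range of `D`
  have hmem : ∀ X : H, ∀ u : LinearMap.range D, (X.1 : U →ₗ[K] V) u.1 ∈ LinearMap.range E := by
    rintro ⟨X, hX⟩ ⟨u, w, rfl⟩
    exact ⟨X w, by simpa using congrArg (fun f => f w) (hH X hX)⟩
  let R : H →ₗ[K] (LinearMap.range D →ₗ[K] LinearMap.range E) :=
    { toFun := fun X => (X.1.domRestrict (LinearMap.range D)).codRestrict _ (hmem X)
      map_add' := by intro X Y; ext u; rfl
      map_smul' := by intro c X; ext u; rfl }
  have hker : ∀ X : LinearMap.ker R, X.1.1 ∘ₗ D = 0 := by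
    rintro ⟨⟨X, hX⟩, hR⟩
    ext w
    have h1 := congrArg (fun f => ((f ⟨D w, w, rfl⟩ : LinearMap.range E) : V)) (LinearMap.mem_ker.1 hR)
    exact h1
  have hmem2 : ∀ X : LinearMap.ker R, ∀ u : U, (X.1.1 : U →ₗ[K] V) u ∈ LinearMap.ker E := by
    intro X u
    have h1 := hH X.1.1 X.1.2
    rw [hker X] at h1
    simpa using congrArg (fun f => f u) h1
  let Q : LinearMap.ker R →ₗ[K] ((U ⧸ LinearMap.range D) →ₗ[K] LinearMap.ker E) :=
    { toFun := fun X => (LinearMap.range D).liftQ (X.1.1.codRestrict _ (hmem2 X)) (by
        rintro _ ⟨w, rfl⟩
        rw [LinearMap.mem_ker]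
        ext
        simpa using congrArg (fun f => f w) (hker X))
      map_add' := by
        intro X Y; ext u; simp
      map_smul' := by
        intro c X; ext u; simp }
  have hQ : Function.Injective Q := by
    rw [injective_iff_map_eq_zero]
    intro X hX
    ext u
    have := congrArg (fun f => ((f (Submodule.Quotient.mk u) : LinearMap.ker E) : V)) hX
    simpa [Q] using this
  have h1 : finrank K (LinearMap.range R) + finrank K (LinearMap.ker R) = finrank K H :=
    LinearMap.finrank_range_add_finrank_ker R
  have h2 : finrank K (LinearMap.range R) ≤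
      finrank K (LinearMap.range D) * finrank K (LinearMap.range E) := by
    calc finrank K (LinearMap.range R) ≤ finrank K (LinearMap.range D →ₗ[K] LinearMap.range E) :=
          Submodule.finrank_le _
      _ = _ := Module.finrank_linearMap K K _ _
  have h3 : finrank K (LinearMap.ker R) ≤ (finrank K U - finrank K (LinearMap.range D))
        * (finrank K V - finrank K (LinearMap.range E)) := by
    calc finrank K (LinearMap.ker R)
        ≤ finrank K ((U ⧸ LinearMap.range D) →ₗ[K] LinearMap.ker E) :=
          LinearMap.finrank_le_finrank_of_injective hQ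
      _ = finrank K (U ⧸ LinearMap.range D) * finrank K (LinearMap.ker E) :=
          Module.finrank_linearMap K K _ _
      _ = _ := by
          have h4 := Submodule.finrank_quotient_add_finrank (LinearMap.range D)
          have h5 := LinearMap.finrank_range_add_finrank_ker E
          congr 1 <;> omega
  omega

end LSThreshold
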