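import Pool.Agent.H722.T1

open Matrix Module
open scoped Kronecker

namespace LSThreshold

variable {K : Type*} [Field K]
variable {ι κ : Type*} [Fintype ι] [DecidableEq ι] [Fintype κ] [DecidableEq κ]

theorem rank_add_le' (A B : Matrix ι ι K) : (A + B).rank ≤ A.rank + B.rank := by
  unfold Matrix.rank
  have h : LinearMap.range (A + B).mulVecLin ≤
      LinearMap.range A.mulVecLin ⊔ LinearMap.range B.mulVecLin := by
    rintro _ ⟨v, rfl⟩
    rw [Matrix.mulVecLin_add]
    exact Submodule.add_mem_sup ⟨v, rfl⟩ ⟨v, rfl⟩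
  exact (Submodule.finrank_mono h).trans (Submodule.finrank_add_le_finrank_add_finrank _ _)

theorem rank_neg' (A : Matrix ι ι K) : (-A).rank = A.rank := by
  have h : ∀ B : Matrix ι ι K, (-B).rank ≤ B.rank := by
    intro B
    have : -B = (-1 : Matrix ι ι K) * B := by simp
    rw [this]
    exact Matrix.rank_mul_le_right _ _
  apply le_antisymm (h A)
  simpa using h (-A)

theorem rank_sub_comm' (A B : Matrix ι ι K) : (A - B).rank = (B - A).rank := by
  rw [← rank_neg' (A - B), neg_sub]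

theorem rank_sub_le' (A B C : Matrix ι ι K) : (A - C).rank ≤ (A - B).rank + (B - C).rank := by
  have : A - C = (A - B) + (B - C) := by abel
  rw [this]
  exact rank_add_le' _ _

theorem rank_kron_one_le (X : Matrix ι ι K) :
    (X ⊗ₖ (1 : Matrix κ κ K)).rank ≤ X.rank * Fintype.card κ := by
  let Φ : (κ → LinearMap.range X.mulVecLin) →ₗ[K] (ι × κ → K) :=
    { toFun := fun f p => (f p.2 : ι → K) p.1
      map_add' := by intro f g; rfl
      map_smul' := by intro c g; rfl }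
  have h : LinearMap.range (X ⊗ₖ (1 : Matrix κ κ K)).mulVecLin ≤ LinearMap.range Φ := by
    rintro _ ⟨v, rfl⟩
    refine ⟨fun j => ⟨X.mulVecLin (fun i => v (i, j)), ⟨_, rfl⟩⟩, ?_⟩
    ext ⟨i, j⟩
    simp [Φ, Matrix.mulVec, dotProduct, Fintype.sum_prod_type, Matrix.one_apply]
  calc (X ⊗ₖ (1 : Matrix κ κ K)).rank ≤ finrank K (LinearMap.range Φ) := Submodule.finrank_mono h
    _ ≤ finrank K (κ → LinearMap.range X.mulVecLin) := LinearMap.finrank_range_le _
    _ = X.rank * Fintype.card κ := by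
        rw [Module.finrank_pi_fintype]
        simp [Matrix.rank, mul_comm]

theorem rank_one_kron_le (Y : Matrix κ κ K) :
    ((1 : Matrix ι ι K) ⊗ₖ Y).rank ≤ Fintype.card ι * Y.rank := by
  have h : (1 : Matrix ι ι K) ⊗ₖ Y = (Y ⊗ₖ (1 : Matrix ι ι K)).submatrix Prod.swap Prod.swap := by
    ext ⟨i, j⟩ ⟨i', j'⟩
    simp [mul_comm]
  rw [h, mul_comm]
  exact (Matrix.rank_submatrix_le _ _ _).trans (rank_kron_one_le Y)

theorem rank_kron_sub_le (X Y : Matrix ι ι K) (X' Y' : Matrix κ κ K) :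
    (X ⊗ₖ X' - Y ⊗ₖ Y').rank ≤
      (X - Y).rank * Fintype.card κ + Fintype.card ι * (X' - Y').rank := by
  have h : X ⊗ₖ X' - Y ⊗ₖ Y' = ((X - Y) ⊗ₖ (1 : Matrix κ κ K)) * ((1 : Matrix ι ι K) ⊗ₖ X')
      + (Y ⊗ₖ (1 : Matrix κ κ K)) * ((1 : Matrix ι ι K) ⊗ₖ (X' - Y')) := by
    rw [← Matrix.mul_kronecker_mul, ← Matrix.mul_kronecker_mul]
    simp only [Matrix.mul_one, Matrix.one_mul]
    ext ⟨i, j⟩ ⟨i', j'⟩
    simp
    ring
  rw [h]
  calc _ ≤ (((X - Y) ⊗ₖ (1 : Matrix κ κ K)) * ((1 : Matrix ι ι K) ⊗ₖ X')).rank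
        + ((Y ⊗ₖ (1 : Matrix κ κ K)) * ((1 : Matrix ι ι K) ⊗ₖ (X' - Y'))).rank := rank_add_le' _ _
    _ ≤ ((X - Y) ⊗ₖ (1 : Matrix κ κ K)).rank + ((1 : Matrix ι ι K) ⊗ₖ (X' - Y')).rank :=
        add_le_add (Matrix.rank_mul_le_left _ _) (Matrix.rank_mul_le_right _ _)
    _ ≤ _ := add_le_add (rank_kron_one_le _) (rank_one_kron_le _)

/-- The key inequality for Kronecker products. -/
theorem kron_rank (T : Matrix ι ι K) (A A' : Matrix κ κ K) (hA : A' * A = 1) :
    Fintype.card ι * Fintype.card κ ≤ (T ⊗ₖ A - 1).rank + ((T - 1).rank * (A - 1).rank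
      + (Fintype.card ι - (T - 1).rank) * (Fintype.card κ - (A - 1).rank)) := by
  -- the operators
  let D : (ι → K) →ₗ[K] (ι → K) := (Tᵀ - 1).mulVecLin
  let E : (κ → K) →ₗ[K] (κ → K) := (A' - 1).mulVecLin
  let Ψ : (ι × κ → K) →ₗ[K] ((ι → K) →ₗ[K] (κ → K)) :=
    { toFun := fun v => (Matrix.of (fun j i => v (i, j))).mulVecLin
      map_add' := by
        intro v w; ext i j; simp [Matrix.mulVec, dotProduct, Pi.single_apply]
      map_smul' := by
        intro c w; ext i j; simp [Matrix.mulVec, dotProduct, Pi.single_apply] }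
  have hΨ : Function.Injective Ψ := by
    rw [injective_iff_map_eq_zero]
    intro v hv
    ext ⟨i, j⟩
    have := congrFun (congrArg (fun f => f (Pi.single i 1)) hv) j
    simpa [Ψ, Matrix.mulVec, dotProduct, Pi.single_apply] using this
  let N := LinearMap.ker (T ⊗ₖ A - 1).mulVecLin
  have hN : ∀ X ∈ N.map Ψ, E ∘ₗ X = X ∘ₗ D := by
    rintro _ ⟨v, hv, rfl⟩
    have hv1 : (T ⊗ₖ A - 1) *ᵥ v = 0 := LinearMap.mem_ker.1 hv
    set X : Matrix κ ι K := Matrix.of (fun j i => v (i, j)) with hX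
    have hvX : v = Matrix.vec X := by ext ⟨i, j⟩; simp [hX, Matrix.vec]
    have h2 : A * X * Tᵀ = X := by
      rw [Matrix.sub_mulVec, hvX, Matrix.kronecker_mulVec_vec, Matrix.one_mulVec, sub_eq_zero] at hv1
      exact Matrix.vec_inj.1 hv1
    have h3 : X * Tᵀ = A' * X := by
      calc X * Tᵀ = (A' * A) * X * Tᵀ := by rw [hA, Matrix.one_mul]
        _ = A' * (A * X * Tᵀ) := by simp only [Matrix.mul_assoc]
        _ = A' * X := by rw [h2]
    have h4 : (A' - 1) * X = X * (Tᵀ - 1) := by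
      rw [Matrix.sub_mul, Matrix.mul_sub, h3, Matrix.one_mul, Matrix.mul_one]
    show (A' - 1).mulVecLin ∘ₗ X.mulVecLin = X.mulVecLin ∘ₗ (Tᵀ - 1).mulVecLin
    rw [← Matrix.mulVecLin_mul, ← Matrix.mulVecLin_mul, h4]
  have h1 := finrank_intertwiner_le D E (N.map Ψ) hN
  have h2 : finrank K (N.map Ψ) = finrank K N := 
    (LinearEquiv.finrank_eq (Submodule.equivMapOfInjective Ψ hΨ N)).symm
  have hD : finrank K (LinearMap.range D) = (T - 1).rank := by
    show (Tᵀ - 1).rank = _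
    rw [← Matrix.rank_transpose, Matrix.transpose_sub, Matrix.transpose_transpose,
      Matrix.transpose_one]
  have hE : finrank K (LinearMap.range E) = (A - 1).rank := by
    show (A' - 1).rank = _
    have hu : IsUnit A'.det := by
      have : A'.det * A.det = 1 := by rw [← Matrix.det_mul, hA, Matrix.det_one]
      exact IsUnit.of_mul_eq_one _ this
    have : A' - 1 = A' * (1 - A) := by rw [Matrix.mul_sub, hA, Matrix.mul_one]
    rw [this, Matrix.rank_mul_eq_right_of_isUnit_det _ _ hu, rank_sub_comm']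
  have h3 : (T ⊗ₖ A - 1).rank + finrank K N = Fintype.card ι * Fintype.card κ := by
    have := LinearMap.finrank_range_add_finrank_ker (T ⊗ₖ A - 1).mulVecLin
    simpa [Matrix.rank, N] using this
  rw [h2, hD, hE] at h1
  simp only [Module.finrank_fintype_fun_eq_card] at h1
  omega

end LSThreshold
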