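import Pool.Agent.H722.T2

open Matrix Module
open scoped Kronecker

namespace LSThreshold

/-- The normalised rank distance on `GL(n, K)`. -/
noncomputable def rankDist {K : Type*} [Field K] {n : ℕ} (A B : GL (Fin n) K) : ℝ :=
  (((A : Matrix (Fin n) (Fin n) K) - (B : Matrix (Fin n) (Fin n) K)).rank : ℝ) / (n : ℝ)

/-- `ε`-approximable groups, in the sense of the problem. -/
def Approximable (K : Type*) [Field K] (G : Type*) [Group G] (ε : ℝ) : Prop :=
  ∀ (F : Finset G) (δ : ℝ), 0 < δ → ∃ (n : ℕ) (φ : G → GL (Fin n) K), 0 < n ∧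
    (∀ g ∈ F, ∀ h ∈ F, rankDist (φ g * φ h) (φ (g * h)) < δ) ∧
    (∀ g ∈ F, ∀ h ∈ F, g ≠ h → ε - δ < rankDist (φ g) (φ h))

variable {K : Type*} [Field K]

/-- Direct sum with the identity. -/
def oneSum {ι : Type*} [Fintype ι] [DecidableEq ι] (A : (Matrix ι ι K)ˣ) :
    (Matrix (ι ⊕ ι) (ι ⊕ ι) K)ˣ where
  val := fromBlocks 1 0 0 A.val
  inv := fromBlocks 1 0 0 A.inv
  val_inv := by simp [fromBlocks_multiply]
  inv_val := by simp [fromBlocks_multiply]

/-- Kronecker product of units. -/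
def kronU {ι κ : Type*} [Fintype ι] [DecidableEq ι] [Fintype κ] [DecidableEq κ]
    (A : (Matrix ι ι K)ˣ) (B : (Matrix κ κ K)ˣ) : (Matrix (ι × κ) (ι × κ) K)ˣ where
  val := A.val ⊗ₖ B.val
  inv := A.inv ⊗ₖ B.inv
  val_inv := by rw [← mul_kronecker_mul]; simp
  inv_val := by rw [← mul_kronecker_mul]; simp

section
variable {ι κ : Type*} [Fintype ι] [DecidableEq ι] [Fintype κ] [DecidableEq κ]

theorem oneSum_mul (A B : (Matrix ι ι K)ˣ) : oneSum (A * B) = oneSum A * oneSum B := by
  ext1; simp [oneSum, fromBlocks_multiply]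

theorem kronU_mul (A B : (Matrix ι ι K)ˣ) (A' B' : (Matrix κ κ K)ˣ) :
    kronU (A * B) (A' * B') = kronU A A' * kronU B B' := by
  ext1; simp [kronU, mul_kronecker_mul]

theorem rank_oneSum_sub (A B : (Matrix ι ι K)ˣ) :
    ((oneSum A).val - (oneSum B).val).rank = (A.val - B.val).rank := by
  have h : (oneSum A).val - (oneSum B).val = fromBlocks 0 0 0 (A.val - B.val) := by
    simp only [oneSum, sub_eq_add_neg, fromBlocks_neg, fromBlocks_add]
    simp
  rw [h]
  apply le_antisymm
  · have h2 : (fromBlocks 0 0 0 (A.val - B.val) : Matrix (ι ⊕ ι) (ι ⊕ ι) K)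
        = (fromRows (0 : Matrix ι ι K) (1 : Matrix ι ι K) * (A.val - B.val))
          * fromCols (0 : Matrix ι ι K) (1 : Matrix ι ι K) := by
      rw [fromRows_mul, fromRows_mul_fromCols]
      simp
    rw [h2]
    exact (Matrix.rank_mul_le_left _ _).trans (Matrix.rank_mul_le_right _ _)
  · have h2 : A.val - B.val = (fromBlocks 0 0 0 (A.val - B.val) :
        Matrix (ι ⊕ ι) (ι ⊕ ι) K).submatrix Sum.inr Sum.inr := by
      ext i j; simp
    conv_lhs => rw [h2]
    exact Matrix.rank_submatrix_le _ _ _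

theorem rank_sub_eq_mul_inv (A B : (Matrix ι ι K)ˣ) :
    (A.val - B.val).rank = ((A * B⁻¹).val - 1).rank := by
  have h : A.val - B.val = ((A * B⁻¹).val - 1) * B.val := by
    rw [Matrix.sub_mul, Matrix.one_mul, ← Units.val_mul, inv_mul_cancel_right]
  have hu : IsUnit B.val.det := (Matrix.isUnit_iff_isUnit_det _).1 B.isUnit
  rw [h, Matrix.rank_mul_eq_left_of_isUnit_det _ _ hu]

/-- The step of the amplification. -/
theorem step_rank (T S : (Matrix κ κ K)ˣ) (A B : (Matrix ι ι K)ˣ) :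
    Fintype.card κ * (2 * Fintype.card ι) ≤ ((kronU T (oneSum A)).val - (kronU S (oneSum B)).val).rank
      + ((T.val - S.val).rank * (A.val - B.val).rank
        + (Fintype.card κ - (T.val - S.val).rank)
          * (2 * Fintype.card ι - (A.val - B.val).rank)) := by
  have h := kron_rank (T * S⁻¹).val (oneSum A * (oneSum B)⁻¹).val (oneSum A * (oneSum B)⁻¹).inv
    (Units.inv_val _)
  have h1 : (T * S⁻¹).val ⊗ₖ (oneSum A * (oneSum B)⁻¹).val
      = (kronU T (oneSum A) * (kronU S (oneSum B))⁻¹).val := by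
    have : kronU T (oneSum A) * (kronU S (oneSum B))⁻¹ = kronU (T * S⁻¹) (oneSum A * (oneSum B)⁻¹) := by
      rw [mul_inv_eq_iff_eq_mul, ← kronU_mul, inv_mul_cancel_right, inv_mul_cancel_right]
    rw [this]; rfl
  rw [h1, ← rank_sub_eq_mul_inv, ← rank_sub_eq_mul_inv, ← rank_sub_eq_mul_inv, rank_oneSum_sub,
    Fintype.card_sum, ← two_mul] at h
  exact h

end

/-- The amplification: tensor powers of `1 ⊕ φ`. -/
theorem amplify {G : Type*} [Group G] (F : Finset G) {ι : Type} [Fintype ι] [DecidableEq ι]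
    [Nonempty ι] (φ : G → (Matrix ι ι K)ˣ) (δ₀ a : ℝ) (hδ₀ : 0 ≤ δ₀) (ha : 0 < a) (ha1 : a ≤ 1)
    (hmul : ∀ g ∈ F, ∀ h ∈ F,
      (((φ g * φ h).val - (φ (g * h)).val).rank : ℝ) ≤ δ₀ * Fintype.card ι)
    (hsep : ∀ g ∈ F, ∀ h ∈ F, g ≠ h → a * Fintype.card ι ≤ (((φ g).val - (φ h).val).rank : ℝ))
    (j : ℕ) :
    ∃ (κ : Type) (_ : Fintype κ) (_ : DecidableEq κ) (_ : Nonempty κ) (ψ : G → (Matrix κ κ K)ˣ),
      (∀ g ∈ F, ∀ h ∈ F,
        (((ψ g * ψ h).val - (ψ (g * h)).val).rank : ℝ) ≤ (j * δ₀) * Fintype.card κ) ∧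
      (∀ g ∈ F, ∀ h ∈ F, g ≠ h →
        (1 - (1 - a) ^ j) / 2 * Fintype.card κ ≤ (((ψ g).val - (ψ h).val).rank : ℝ)) := by
  induction j with
  | zero =>
    refine ⟨Unit, inferInstance, inferInstance, inferInstance, fun _ => 1, ?_, ?_⟩
    · intro g _ h _
      simp
    · intro g _ h _ _
      simp
  | succ j ih =>
    obtain ⟨κ, hF, hD, hN, ψ, h1, h2⟩ := ih
    refine ⟨κ × (ι ⊕ ι), inferInstance, inferInstance, inferInstance,
      fun g => kronU (ψ g) (oneSum (φ g)), ?_, ?_⟩
    · intro g hg h hh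
      have e1 : kronU (ψ g) (oneSum (φ g)) * kronU (ψ h) (oneSum (φ h))
          = kronU (ψ g * ψ h) (oneSum (φ g * φ h)) := by
        rw [oneSum_mul, kronU_mul]
      rw [e1]
      have e2 := rank_kron_sub_le (ψ g * ψ h).val (ψ (g * h)).val (oneSum (φ g * φ h)).val
        (oneSum (φ (g * h))).val
      rw [rank_oneSum_sub, Fintype.card_sum, ← two_mul] at e2
      have e3 : (((kronU (ψ g * ψ h) (oneSum (φ g * φ h))).val
          - (kronU (ψ (g * h)) (oneSum (φ (g * h)))).val).rank : ℝ) ≤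
          ((ψ g * ψ h).val - (ψ (g * h)).val).rank * (2 * Fintype.card ι)
          + Fintype.card κ * ((φ g * φ h).val - (φ (g * h)).val).rank := by
        exact_mod_cast e2
      have e4 := h1 g hg h hh
      have e5 := hmul g hg h hh
      have e6 : (0 : ℝ) ≤ Fintype.card ι := Nat.cast_nonneg _
      have e7 : (0 : ℝ) ≤ Fintype.card κ := Nat.cast_nonneg _
      rw [Fintype.card_prod, Fintype.card_sum]
      push_cast
      refine e3.trans ?_
      have e8 : (((ψ g * ψ h).val - (ψ (g * h)).val).rank : ℝ) * (2 * Fintype.card ι)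
          ≤ (j * δ₀ * Fintype.card κ) * (2 * Fintype.card ι) :=
        mul_le_mul_of_nonneg_right e4 (by positivity)
      have e9 : (Fintype.card κ : ℝ) * ((φ g * φ h).val - (φ (g * h)).val).rank
          ≤ Fintype.card κ * (δ₀ * Fintype.card ι) := mul_le_mul_of_nonneg_left e5 e7
      nlinarith [mul_nonneg hδ₀ (mul_nonneg e7 e6)]
    · intro g hg h hh hgh
      have e1 := step_rank (ψ g) (ψ h) (φ g) (φ h)
      have e2 := h2 g hg h hh hgh
      have e3 := hsep g hg h hh hgh
      have tle : ((ψ g).val - (ψ h).val).rank ≤ Fintype.card κ := Matrix.rank_le_card_width _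
      have sle : ((φ g).val - (φ h).val).rank ≤ Fintype.card ι := Matrix.rank_le_card_width _
      set t := ((ψ g).val - (ψ h).val).rank
      set s := ((φ g).val - (φ h).val).rank
      set R := ((kronU (ψ g) (oneSum (φ g))).val - (kronU (ψ h) (oneSum (φ h))).val).rank
      rw [Fintype.card_prod, Fintype.card_sum]
      push_cast
      have hκ : (0 : ℝ) < Fintype.card κ := by exact_mod_cast Fintype.card_pos
      have hι : (0 : ℝ) < Fintype.card ι := by exact_mod_cast Fintype.card_pos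
      have tle' : (t : ℝ) ≤ Fintype.card κ := by exact_mod_cast tle
      have sle' : (s : ℝ) ≤ Fintype.card ι := by exact_mod_cast sle
      have e4 : (Fintype.card κ : ℝ) * (2 * Fintype.card ι) ≤ R + (t * s
          + (Fintype.card κ - t) * (2 * Fintype.card ι - s)) := by
        have := e1
        have c1 : ((Fintype.card κ - t : ℕ) : ℝ) = Fintype.card κ - t := Nat.cast_sub tle
        have c2 : ((2 * Fintype.card ι - s : ℕ) : ℝ) = 2 * Fintype.card ι - s := by
          rw [Nat.cast_sub (by omega)]; push_cast; ring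
        rw [← c1, ← c2]
        exact_mod_cast this
      have hx : (0 : ℝ) ≤ (1 - a) ^ j := pow_nonneg (by linarith) _
      rw [pow_succ]
      generalize (Fintype.card κ : ℝ) = M at *
      generalize (Fintype.card ι : ℝ) = n at *
      generalize ((1 - a) ^ j : ℝ) = x at *
      -- `M * (2n) - 2 R ≤ (M - 2 t) (2 n - 2 s)`
      have e5 : M * (2 * n) - 2 * R ≤ (M - 2 * t) * (2 * n - 2 * s) := by nlinarith
      have e6 : M - 2 * t ≤ x * M := by nlinarith
      have e7 : (M - 2 * t) * (2 * n - 2 * s) ≤ (x * M) * (2 * n - 2 * s) :=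
        mul_le_mul_of_nonneg_right e6 (by linarith)
      have e8 : (x * M) * (2 * n - 2 * s) ≤ (x * M) * (2 * n - 2 * (a * n)) :=
        mul_le_mul_of_nonneg_left (by linarith) (by positivity)
      nlinarith

end LSThreshold
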