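import Pool.Agent.H722.T3

open Matrix Module
open scoped Kronecker

namespace LSThreshold

variable {K : Type*} [Field K]

/-- Transfer from arbitrary finite index types to `Fin n`. -/
theorem exists_fin {G : Type*} [Group G] (F : Finset G) {κ : Type*} [Fintype κ] [DecidableEq κ]
    [Nonempty κ] (ψ : G → (Matrix κ κ K)ˣ) :
    ∃ (n : ℕ) (φ : G → GL (Fin n) K), 0 < n ∧ n = Fintype.card κ ∧
      (∀ g h, rankDist (φ g * φ h) (φ (g * h)) =
        (((ψ g * ψ h).val - (ψ (g * h)).val).rank : ℝ) / Fintype.card κ) ∧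
      (∀ g h, rankDist (φ g) (φ h) = (((ψ g).val - (ψ h).val).rank : ℝ) / Fintype.card κ) := by
  let e := Fintype.equivFin κ
  let f : Matrix κ κ K ≃ₐ[K] Matrix (Fin (Fintype.card κ)) (Fin (Fintype.card κ)) K :=
    Matrix.reindexAlgEquiv K K e
  have hf : ∀ A : Matrix κ κ K, (f A).rank = A.rank := by
    intro A
    show (Matrix.reindex e e A).rank = A.rank
    exact Matrix.rank_reindex e e A
  refine ⟨Fintype.card κ, fun g => Units.map (f : Matrix κ κ K →* _) (ψ g), Fintype.card_pos, rfl,
    ?_, ?_⟩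
  · intro g h
    unfold rankDist
    rw [← map_mul]
    simp only [Units.coe_map, MonoidHom.coe_coe]
    rw [← map_sub, hf]
  · intro g h
    unfold rankDist
    simp only [Units.coe_map, MonoidHom.coe_coe]
    rw [← map_sub, hf]

/-- **Amplification to `1/2`**, over every field. -/
theorem approximable_of_approximable {G : Type*} [Group G] {ε ε' : ℝ} (hε' : 0 < ε')
    (hε : ε ≤ 1 / 2) (h : Approximable K G ε') : Approximable K G ε := by
  intro F δ hδ
  set a : ℝ := min ε' 1 / 2 with ha_def
  have hm : 0 < min ε' 1 := lt_min hε' one_pos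
  have ha : 0 < a := by positivity
  have ha1 : a ≤ 1 := by
    have := min_le_right ε' 1
    linarith
  have haε : 2 * a ≤ ε' := by
    have := min_le_left ε' 1
    linarith
  obtain ⟨j, hj⟩ := exists_pow_lt_of_lt_one hδ (show 1 - a < 1 by linarith)
  set δ₁ : ℝ := min a (δ / (j + 1)) with hδ₁_def
  have hj1 : (0 : ℝ) < j + 1 := by positivity
  have hδ₁ : 0 < δ₁ := lt_min ha (by positivity)
  obtain ⟨n, φ, hn, h1, h2⟩ := h F δ₁ hδ₁
  haveI : Nonempty (Fin n) := ⟨⟨0, hn⟩⟩
  have hn' : (0 : ℝ) < n := by exact_mod_cast hn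
  obtain ⟨κ, hF, hD, hN, ψ, h3, h4⟩ := amplify F φ δ₁ a hδ₁.le ha ha1
    (by
      intro g hg h hh
      have := h1 g hg h hh
      unfold rankDist at this
      rw [div_lt_iff₀ hn'] at this
      simpa using this.le)
    (by
      intro g hg h hh hgh
      have := h2 g hg h hh hgh
      unfold rankDist at this
      rw [lt_div_iff₀ hn'] at this
      have h5 : a ≤ ε' - δ₁ := by
        have := min_le_left a (δ / (j + 1))
        linarith
      have h6 : a * (n : ℝ) ≤ (ε' - δ₁) * n := mul_le_mul_of_nonneg_right h5 hn'.le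
      simpa using h6.trans this.le) j
  have hκ : (0 : ℝ) < Fintype.card κ := by exact_mod_cast Fintype.card_pos
  obtain ⟨m, θ, hm, -, h5, h6⟩ := exists_fin F ψ
  refine ⟨m, θ, hm, ?_, ?_⟩
  · intro g hg h hh
    rw [h5, div_lt_iff₀ hκ]
    refine (h3 g hg h hh).trans_lt ?_
    apply mul_lt_mul_of_pos_right _ hκ
    calc (j : ℝ) * δ₁ ≤ j * (δ / (j + 1)) :=
          mul_le_mul_of_nonneg_left (min_le_right _ _) (Nat.cast_nonneg _)
      _ < (j + 1) * (δ / (j + 1)) := mul_lt_mul_of_pos_right (by linarith) (by positivity)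
      _ = δ := by field_simp
  · intro g hg h hh hgh
    rw [h6, lt_div_iff₀ hκ]
    refine lt_of_lt_of_le ?_ (h4 g hg h hh hgh)
    apply mul_lt_mul_of_pos_right _ hκ
    have : (0 : ℝ) ≤ (1 - a) ^ j := pow_nonneg (by linarith) _
    linarith

/-- A group with a faithful finite dimensional representation is `ε`-approximable for all
`ε ≤ 1/2`. -/
theorem approximable_of_injective {G : Type*} [Group G] {κ : Type*} [Fintype κ] [DecidableEq κ]
    [Nonempty κ] (ρ : G →* (Matrix κ κ K)ˣ) (hρ : Function.Injective ρ) {ε : ℝ} (hε : ε ≤ 1 / 2) :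
    Approximable K G ε := by
  have hκ : (0 : ℝ) < Fintype.card κ := by exact_mod_cast Fintype.card_pos
  apply approximable_of_approximable (ε' := 1 / Fintype.card κ) (by positivity) hε
  intro F δ hδ
  obtain ⟨m, θ, hm, -, h5, h6⟩ := exists_fin F (fun g => ρ g)
  refine ⟨m, θ, hm, ?_, ?_⟩
  · intro g hg h hh
    rw [h5, ← map_mul]
    simpa using hδ
  · intro g hg h hh hgh
    rw [h6]
    have h7 : 0 < ((ρ g).val - (ρ h).val).rank := by
      rw [Nat.pos_iff_ne_zero]
      intro h8
      apply hgh
      apply hρ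
      ext1
      rw [← sub_eq_zero]
      have h9 : LinearMap.range ((ρ g).val - (ρ h).val).mulVecLin = ⊥ :=
        Submodule.finrank_eq_zero.1 h8
      rw [LinearMap.range_eq_bot] at h9
      ext i j
      have := congrFun (congrArg (fun f => f (Pi.single j 1)) h9) i
      simpa using this
    have h8 : (1 : ℝ) ≤ ((ρ g).val - (ρ h).val).rank := by exact_mod_cast h7
    have : 1 / (Fintype.card κ : ℝ) ≤ (((ρ g).val - (ρ h).val).rank : ℝ) / Fintype.card κ :=
      div_le_div_of_nonneg_right h8 hκ.le
    linarith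

/-- Finite groups are `ε`-approximable for all `ε ≤ 1/2`. -/
theorem approximable_of_finite (G : Type*) [Group G] [Finite G] {ε : ℝ} (hε : ε ≤ 1 / 2) :
    Approximable K G ε := by
  classical
  haveI := Fintype.ofFinite G
  let ρ : G →* (Matrix G G K)ˣ :=
    { toFun := fun g =>
        { val := (Equiv.mulLeft g⁻¹).toPEquiv.toMatrix
          inv := (Equiv.mulLeft g).toPEquiv.toMatrix
          val_inv := by
            rw [← PEquiv.toMatrix_trans, ← Equiv.toPEquiv_trans]
            have : (Equiv.mulLeft g⁻¹).trans (Equiv.mulLeft g) = Equiv.refl G := by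
              ext x; simp
            rw [this, Equiv.toPEquiv_refl, PEquiv.toMatrix_refl]
          inv_val := by
            rw [← PEquiv.toMatrix_trans, ← Equiv.toPEquiv_trans]
            have : (Equiv.mulLeft g).trans (Equiv.mulLeft g⁻¹) = Equiv.refl G := by
              ext x; simp
            rw [this, Equiv.toPEquiv_refl, PEquiv.toMatrix_refl] }
      map_one' := by
        ext1
        show (Equiv.mulLeft (1 : G)⁻¹).toPEquiv.toMatrix = 1
        have : Equiv.mulLeft (1 : G)⁻¹ = Equiv.refl G := by ext x; simp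
        rw [this, Equiv.toPEquiv_refl, PEquiv.toMatrix_refl]
      map_mul' := by
        intro g h
        ext1
        show (Equiv.mulLeft (g * h)⁻¹).toPEquiv.toMatrix
          = (Equiv.mulLeft g⁻¹).toPEquiv.toMatrix * (Equiv.mulLeft h⁻¹).toPEquiv.toMatrix
        rw [← PEquiv.toMatrix_trans, ← Equiv.toPEquiv_trans]
        congr 2
        ext x; simp [mul_assoc] }
  apply approximable_of_injective ρ _ hε
  intro g h hgh
  have h1 : (Equiv.mulLeft g⁻¹).toPEquiv.toMatrix (α := K) = (Equiv.mulLeft h⁻¹).toPEquiv.toMatrix :=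
    congrArg Units.val hgh
  have h2 := PEquiv.toMatrix_injective h1
  have h3 := congrArg (fun f => f 1) h2
  simpa using h3

end LSThreshold
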