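import Pool.Agent.H722.T4

open Matrix Module
open scoped Kronecker

namespace LSThreshold

variable {K : Type*} [Field K]

/-! ### Characteristic two -/

theorem two_mul_rank_le {ι : Type*} [Fintype ι] [DecidableEq ι] (N : Matrix ι ι K) :
    2 * N.rank ≤ Fintype.card ι + (N * N).rank := by
  have h1 := LinearMap.finrank_range_add_finrank_ker
    (N.mulVecLin.domRestrict (LinearMap.range N.mulVecLin))
  have h2 : finrank K (LinearMap.range (N.mulVecLin.domRestrict (LinearMap.range N.mulVecLin)))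
      ≤ (N * N).rank := by
    apply Submodule.finrank_mono
    rintro _ ⟨⟨_, w, rfl⟩, rfl⟩
    refine ⟨w, ?_⟩
    simp [Matrix.mulVecLin_mul]
  have h3 : finrank K (LinearMap.ker (N.mulVecLin.domRestrict (LinearMap.range N.mulVecLin)))
      ≤ finrank K (LinearMap.ker N.mulVecLin) := by
    let f : LinearMap.ker (N.mulVecLin.domRestrict (LinearMap.range N.mulVecLin)) →ₗ[K]
        LinearMap.ker N.mulVecLin :=
      { toFun := fun x => ⟨x.1.1, x.2⟩
        map_add' := by intro x y; rfl
        map_smul' := by intro c x; rfl }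
    apply LinearMap.finrank_le_finrank_of_injective (f := f)
    intro x y hxy
    have := congrArg (fun z : LinearMap.ker N.mulVecLin => z.1) hxy
    exact Subtype.ext (Subtype.ext this)
  have h4 := LinearMap.finrank_range_add_finrank_ker N.mulVecLin
  have h5 : finrank K (LinearMap.range N.mulVecLin) = N.rank := rfl
  rw [Module.finrank_fintype_fun_eq_card] at h4
  omega

theorem not_approximable_char_two (h2 : (2 : K) = 0) {G : Type*} [Group G] {g : G} (hg : g ≠ 1)
    (hgg : g * g = 1) {ε : ℝ} (hε : 1 / 2 < ε) : ¬ Approximable K G ε := by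
  classical
  intro h
  obtain ⟨n, φ, hn, h1, h3⟩ := h {1, g} ((ε - 1 / 2) / 4) (by linarith)
  have hn' : (0 : ℝ) < n := by exact_mod_cast hn
  set δ := (ε - 1 / 2) / 4 with hδ
  have e1 := h1 g (by simp) g (by simp)
  have e2 := h1 1 (by simp) 1 (by simp)
  have e3 := h3 g (by simp) 1 (by simp) hg
  unfold rankDist at e1 e2 e3
  rw [hgg, div_lt_iff₀ hn'] at e1
  rw [mul_one, div_lt_iff₀ hn'] at e2
  rw [lt_div_iff₀ hn'] at e3
  set T : Matrix (Fin n) (Fin n) K := (φ g).val with hT
  set S : Matrix (Fin n) (Fin n) K := (φ 1).val with hS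
  have e1' : ((T * T - S).rank : ℝ) < δ * n := by simpa [hT, hS] using e1
  have e2' : ((S - 1).rank : ℝ) < δ * n := by
    have hu : IsUnit S.det := (Matrix.isUnit_iff_isUnit_det _).1 (φ 1).isUnit
    have : S * S - S = S * (S - 1) := by rw [Matrix.mul_sub, Matrix.mul_one]
    have h5 : ((φ 1 * φ 1 : GL (Fin n) K) : Matrix (Fin n) (Fin n) K) - S = S * (S - 1) := by
      rw [← this]; simp [hS]
    rw [h5, Matrix.rank_mul_eq_right_of_isUnit_det _ _ hu] at e2
    exact e2
  have e4 : (T - 1) * (T - 1) = (T * T - S) + (S - 1) := by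
    have : (T - 1) * (T - 1) = (T * T - S) + (S - 1) - (2 : K) • T + (2 : K) • (1 : Matrix (Fin n) (Fin n) K) := by
      rw [two_smul, two_smul, Matrix.sub_mul, Matrix.mul_sub, Matrix.mul_one, Matrix.one_mul]
      abel
    rw [this, h2]; simp
  have e5 := two_mul_rank_le (T - 1)
  rw [e4, Fintype.card_fin] at e5
  have e6 := rank_add_le' (T * T - S) (S - 1)
  have e7 := rank_sub_le' T 1 S
  rw [rank_sub_comm' 1 S] at e7
  have e8 : (2 : ℝ) * (T - 1).rank ≤ n + ((T * T - S).rank + (S - 1).rank) := by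
    exact_mod_cast e5.trans (by omega)
  have e9 : ((T - S).rank : ℝ) ≤ (T - 1).rank + (S - 1).rank := by exact_mod_cast e7
  nlinarith

/-! ### Characteristic different from two -/

/-- The sign character of `ℤ/2`. -/
def sg (K : Type*) [Field K] (b : ZMod 2) : K := if b = 0 then 1 else -1

theorem zmod2_cases (a : ZMod 2) : a = 0 ∨ a = 1 := by
  revert a; decide

theorem sg_add (a b : ZMod 2) : sg K (a + b) = sg K a * sg K b := by
  have h : (1 : ZMod 2) + 1 = 0 := rfl
  rcases zmod2_cases a with rfl | rfl <;> rcases zmod2_cases b with rfl | rfl <;>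
    simp [sg, h]

theorem sg_sq (a : ZMod 2) : sg K a = 1 ∨ sg K a = -1 := by
  unfold sg; split_ifs <;> simp

/-- The characters of `(ℤ/2)^k`. -/
def ch (K : Type*) [Field K] {k : ℕ} (s x : Fin k → ZMod 2) : K := ∏ i, sg K (s i * x i)

theorem ch_comm {k : ℕ} (s x : Fin k → ZMod 2) : ch K s x = ch K x s := by
  unfold ch; simp only [mul_comm]

theorem ch_add {k : ℕ} (s x y : Fin k → ZMod 2) : ch K s (x + y) = ch K s x * ch K s y := by
  unfold ch
  rw [← Finset.prod_mul_distrib]
  refine Finset.prod_congr rfl fun i _ => ?_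
  rw [← sg_add, Pi.add_apply, mul_add]

theorem ch_zero {k : ℕ} (s : Fin k → ZMod 2) : ch K s 0 = 1 := by
  simp [ch, sg]

theorem ch_sq {k : ℕ} (s x : Fin k → ZMod 2) : ch K s x = 1 ∨ ch K s x = -1 := by
  unfold ch
  refine Finset.prod_induction _ (fun a => a = 1 ∨ a = -1) ?_ (Or.inl rfl) fun i _ => sg_sq _
  rintro a b (rfl | rfl) (rfl | rfl) <;> simp

theorem sum_ch {k : ℕ} (s : Fin k → ZMod 2) :
    ∑ x : Fin k → ZMod 2, ch K s x = if s = 0 then (2 : K) ^ k else 0 := by
  have h1 : ∑ x : Fin k → ZMod 2, ch K s x = ∏ i, ∑ b : ZMod 2, sg K (s i * b) := by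
    rw [Finset.prod_univ_sum]
    rfl
  rw [h1]
  have h2 : ∀ a : ZMod 2, ∑ b : ZMod 2, sg K (a * b) = if a = 0 then 2 else 0 := by
    intro a
    have hu : (Finset.univ : Finset (ZMod 2)) = {0, 1} := rfl
    rw [hu, Finset.sum_pair (by decide)]
    rcases zmod2_cases a with rfl | rfl
    · simp [sg]; norm_num
    · simp [sg]
  simp only [h2]
  split_ifs with hs
  · subst hs; simp
  · obtain ⟨i, hi⟩ := Function.ne_iff.1 hs
    exact Finset.prod_eq_zero (Finset.mem_univ i) (if_neg hi)

theorem sum_ch_mul {k : ℕ} (s t : Fin k → ZMod 2) :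
    ∑ x : Fin k → ZMod 2, ch K s x * ch K t x = if s = t then (2 : K) ^ k else 0 := by
  have h1 : ∀ x, ch K s x * ch K t x = ch K (s + t) x := by
    intro x; rw [ch_comm (s + t), ch_add, ch_comm x s, ch_comm x t]
  simp only [h1, sum_ch]
  have h2 : s + t = 0 ↔ s = t := by
    constructor
    · intro h
      have : s = -t := eq_neg_of_add_eq_zero_left h
      rw [this]; ext i; simp [ZMod.neg_eq_self_mod_two]
    · rintro rfl
      funext i; exact CharTwo.add_self_eq_zero (s i)
  simp only [h2]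

end LSThreshold
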