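import Pool.Agent.H722.T5

open Matrix Module
open scoped Kronecker

namespace LSThreshold

variable {K : Type*} [Field K]

/-- At least half of the points have value `1` under a character. -/
theorem half_le [DecidableEq K] {k : ℕ} (s : Fin k → ZMod 2) :
    2 ^ k ≤ 2 * ((Finset.univ : Finset (Fin k → ZMod 2)).filter (fun x => ch K s x = 1)).card := by
  have hq : (Finset.univ : Finset (Fin k → ZMod 2)).card = 2 ^ k := by
    rw [Finset.card_univ, Fintype.card_fun, ZMod.card, Fintype.card_fin]
  have h1 := Finset.card_filter_add_card_filter_not (s := (Finset.univ : Finset (Fin k → ZMod 2)))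
    (fun x => ch K s x = 1)
  have h3 : ((Finset.univ : Finset (Fin k → ZMod 2)).filter (fun x => ¬ ch K s x = 1)).card ≤
      ((Finset.univ : Finset (Fin k → ZMod 2)).filter (fun x => ch K s x = 1)).card := by
    by_cases he : ((Finset.univ : Finset (Fin k → ZMod 2)).filter (fun x => ¬ ch K s x = 1)) = ∅
    · rw [he]; simp
    · obtain ⟨x₀, hx₀⟩ := Finset.nonempty_iff_ne_empty.2 he
      have hx₀' : ch K s x₀ = -1 := (ch_sq s x₀).resolve_left (Finset.mem_filter.1 hx₀).2
      apply Finset.card_le_card_of_injOn (fun x => x + x₀)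
      · intro x hx
        have hx' : ch K s x = -1 := (ch_sq s x).resolve_left (Finset.mem_filter.1 hx).2
        simp [ch_add, hx', hx₀']
      · intro x _ y _ hxy
        exact add_right_cancel hxy
  omega

section main
variable {n k : ℕ} (a : (Fin k → ZMod 2) → Matrix (Fin n) (Fin n) K)

/-- The space on which the map is exactly multiplicative. -/
def V0 : Submodule K (Fin n → K) where
  carrier := {v | ∀ x y, a x *ᵥ (a y *ᵥ v) = a (x + y) *ᵥ v}
  add_mem' := by
    intro v w hv hw x y
    simp only [Matrix.mulVec_add]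
    rw [hv x y, hw x y]
  zero_mem' := by intro x y; simp
  smul_mem' := by
    intro c v hv x y
    simp only [Matrix.mulVec_smul]
    rw [hv x y]

/-- The simultaneous eigenspaces. -/
def W (s : Fin k → ZMod 2) : Submodule K (Fin n → K) where
  carrier := {w | ∀ x, a x *ᵥ w = ch K s x • w}
  add_mem' := by
    intro v w hv hw x
    rw [Matrix.mulVec_add, hv x, hw x, smul_add]
  zero_mem' := by intro x; simp
  smul_mem' := by
    intro c v hv x
    rw [Matrix.mulVec_smul, hv x, smul_comm]

/-- The approximate projections. -/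
def P (s : Fin k → ZMod 2) : Matrix (Fin n) (Fin n) K :=
  ((2 : K) ^ k)⁻¹ • ∑ x, ch K s x • a x

theorem P_mulVec (s : Fin k → ZMod 2) (v : Fin n → K) :
    P a s *ᵥ v = ((2 : K) ^ k)⁻¹ • ∑ x, ch K s x • (a x *ᵥ v) := by
  unfold P
  rw [Matrix.smul_mulVec, Matrix.sum_mulVec]
  simp only [Matrix.smul_mulVec]

theorem P_mem (s : Fin k → ZMod 2) {v : Fin n → K} (hv : v ∈ V0 a) : P a s *ᵥ v ∈ W a s := by
  intro x
  rw [P_mulVec, Matrix.mulVec_smul, Matrix.mulVec_sum, smul_comm]
  congr 1
  rw [Finset.smul_sum]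
  have hv' : ∀ x y, a x *ᵥ (a y *ᵥ v) = a (x + y) *ᵥ v := hv
  have hxx : x + x = 0 := by funext i; exact CharTwo.add_self_eq_zero (x i)
  refine Fintype.sum_equiv (Equiv.addLeft x) _ _ fun y => ?_
  rw [Matrix.mulVec_smul, hv', smul_smul]
  congr 1
  show ch K s y = ch K s x * ch K s (x + y)
  rw [← ch_add, ← add_assoc, hxx, zero_add]

theorem sum_P (h2 : (2 : K) ≠ 0) {v : Fin n → K} (h0 : a 0 *ᵥ v = v) :
    ∑ s, P a s *ᵥ v = v := by
  simp only [P_mulVec]
  rw [← Finset.smul_sum, Finset.sum_comm]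
  have : ∀ x : Fin k → ZMod 2, ∑ s, ch K s x • (a x *ᵥ v)
      = if x = 0 then (2 : K) ^ k • v else 0 := by
    intro x
    rw [← Finset.sum_smul]
    have h3 : ∑ s : Fin k → ZMod 2, ch K s x = if x = 0 then (2 : K) ^ k else 0 := by
      rw [← sum_ch x]
      exact Finset.sum_congr rfl fun s _ => ch_comm s x
    rw [h3]
    split_ifs with hx
    · rw [hx, h0]
    · simp
  simp only [this]
  rw [Finset.sum_ite_eq' Finset.univ (0 : Fin k → ZMod 2)]
  simp [smul_smul, h2]

theorem P_on_W (h2 : (2 : K) ≠ 0) (s t : Fin k → ZMod 2) {w : Fin n → K} (hw : w ∈ W a s) :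
    P a t *ᵥ w = if s = t then w else 0 := by
  rw [P_mulVec]
  have hw' : ∀ x, a x *ᵥ w = ch K s x • w := hw
  simp only [hw', smul_smul]
  rw [← Finset.sum_smul]
  have : ∑ x : Fin k → ZMod 2, ch K t x * ch K s x = if s = t then (2 : K) ^ k else 0 := by
    rw [← sum_ch_mul s t]
    exact Finset.sum_congr rfl fun s _ => mul_comm _ _
  rw [this]
  split_ifs with h
  · rw [smul_smul, inv_mul_cancel₀ (pow_ne_zero _ h2), one_smul]
  · simp

/-- `V₀` is small codimensional. -/
theorem V0_dim : n ≤ finrank K (V0 a) + ∑ x, ∑ y, (a x * a y - a (x + y)).rank := by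
  let Θ : (Fin n → K) →ₗ[K] ((p : (Fin k → ZMod 2) × (Fin k → ZMod 2)) →
      LinearMap.range (a p.1 * a p.2 - a (p.1 + p.2)).mulVecLin) :=
    LinearMap.pi fun p => (a p.1 * a p.2 - a (p.1 + p.2)).mulVecLin.rangeRestrict
  have h1 := LinearMap.finrank_range_add_finrank_ker Θ
  have h2 : finrank K (LinearMap.range Θ) ≤ ∑ x, ∑ y, (a x * a y - a (x + y)).rank := by
    refine (Submodule.finrank_le _).trans ?_
    rw [Module.finrank_pi_fintype, Fintype.sum_prod_type]
    rfl
  have h3 : LinearMap.ker Θ ≤ V0 a := by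
    intro v hv x y
    have h4 := congrArg Subtype.val (congrFun (LinearMap.mem_ker.1 hv) (x, y))
    have h5 : (a x * a y - a (x + y)) *ᵥ v = 0 := h4
    rw [Matrix.sub_mulVec, sub_eq_zero, ← Matrix.mulVec_mulVec] at h5
    exact h5
  have h4 := Submodule.finrank_mono h3
  rw [Module.finrank_fintype_fun_eq_card, Fintype.card_fin] at h1
  omega

theorem V0_le_sum (h2 : (2 : K) ≠ 0) (h0 : IsUnit (a 0)) :
    finrank K (V0 a) ≤ ∑ s, finrank K (W a s) := by
  rw [← Module.finrank_pi_fintype]
  let f : V0 a →ₗ[K] ((s : Fin k → ZMod 2) → W a s) :=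
    { toFun := fun v s => ⟨P a s *ᵥ v.1, P_mem a s v.2⟩
      map_add' := by
        intro v w; funext s; apply Subtype.ext
        show P a s *ᵥ ((v.1 : Fin n → K) + w.1) = P a s *ᵥ v.1 + P a s *ᵥ w.1
        exact Matrix.mulVec_add _ _ _
      map_smul' := by
        intro c v; funext s; apply Subtype.ext
        show P a s *ᵥ (c • (v.1 : Fin n → K)) = c • (P a s *ᵥ v.1)
        exact Matrix.mulVec_smul _ _ _ }
  apply LinearMap.finrank_le_finrank_of_injective (f := f)
  rw [injective_iff_map_eq_zero]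
  intro v hv
  have h3 : ∀ s, P a s *ᵥ v.1 = 0 := fun s => congrArg Subtype.val (congrFun hv s)
  have h4 : a 0 *ᵥ v.1 = v.1 := by
    have h5 : a 0 *ᵥ (a 0 *ᵥ v.1) = a (0 + 0) *ᵥ v.1 := v.2 0 0
    rw [add_zero] at h5
    obtain ⟨u, hu⟩ := h0
    have h6 := congrArg (fun z => u.inv *ᵥ z) h5
    simp only [Matrix.mulVec_mulVec] at h6
    rw [← hu, ← Matrix.mul_assoc, Units.inv_val, Matrix.one_mul, Matrix.one_mulVec] at h6
    rw [← hu]; exact h6
  have h5 := sum_P a h2 h4
  simp only [h3, Finset.sum_const_zero] at h5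
  exact Subtype.ext h5.symm

theorem ker_ge [DecidableEq K] (h2 : (2 : K) ≠ 0) (x : Fin k → ZMod 2) :
    (∑ s ∈ Finset.univ.filter (fun s : Fin k → ZMod 2 => ch K s x = 1), finrank K (W a s))
      + (a x - a 0).rank ≤ n := by
  let S := {s : Fin k → ZMod 2 // ch K s x = 1}
  let f : ((s : S) → W a s.1) →ₗ[K] LinearMap.ker (a x - a 0).mulVecLin :=
    { toFun := fun w => ⟨∑ s, (w s).1, by
        rw [LinearMap.mem_ker, Matrix.mulVecLin_apply, Matrix.sub_mulVec, sub_eq_zero,
          Matrix.mulVec_sum, Matrix.mulVec_sum]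
        refine Finset.sum_congr rfl fun s _ => ?_
        have h3 : ∀ y, a y *ᵥ (w s).1 = ch K s.1 y • (w s).1 := (w s).2
        rw [h3, h3, ch_zero, s.2]⟩
      map_add' := by
        intro v w
        apply Subtype.ext
        simp [Finset.sum_add_distrib]
      map_smul' := by
        intro c v
        apply Subtype.ext
        simp [Finset.smul_sum] }
  have hf : Function.Injective f := by
    rw [injective_iff_map_eq_zero]
    intro w hw
    funext t
    have h3 : ∑ s, (w s).1 = 0 := congrArg Subtype.val hw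
    have h4 := congrArg (fun z => P a t.1 *ᵥ z) h3
    simp only [Matrix.mulVec_sum, Matrix.mulVec_zero] at h4
    have h6 : ∑ s : S, P a t.1 *ᵥ (w s).1 = (w t).1 := by
      rw [Finset.sum_eq_single t]
      · rw [P_on_W a h2 t.1 t.1 (w t).2, if_pos rfl]
      · intro s _ hs
        rw [P_on_W a h2 s.1 t.1 (w s).2, if_neg (fun h => hs (Subtype.ext h))]
      · intro h; exact absurd (Finset.mem_univ t) h
    rw [h6] at h4
    exact Subtype.ext h4
  have h3 := LinearMap.finrank_le_finrank_of_injective hf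
  rw [Module.finrank_pi_fintype] at h3
  have h4 : ∑ s : S, finrank K (W a s.1) =
      ∑ s ∈ Finset.univ.filter (fun s : Fin k → ZMod 2 => ch K s x = 1), finrank K (W a s) := by
    exact (Finset.sum_subtype (Finset.univ.filter (fun s : Fin k → ZMod 2 => ch K s x = 1))
      (fun s => by simp) (fun s => finrank K (W a s))).symm
  have h5 := LinearMap.finrank_range_add_finrank_ker (a x - a 0).mulVecLin
  rw [Module.finrank_fintype_fun_eq_card, Fintype.card_fin] at h5
  have h6 : finrank K (LinearMap.range (a x - a 0).mulVecLin) = (a x - a 0).rank := rfl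
  omega

/-- The averaged bound. -/
theorem sum_rank_le (h2 : (2 : K) ≠ 0) (h0 : IsUnit (a 0)) :
    2 * ∑ x, (a x - a 0).rank ≤ 2 ^ k * n
      + 2 ^ k * ∑ x, ∑ y, (a x * a y - a (x + y)).rank := by
  classical
  have h1 := V0_dim a
  have h3 := V0_le_sum a h2 h0
  have h4 : ∑ x : Fin k → ZMod 2, ((∑ s ∈ Finset.univ.filter
      (fun s : Fin k → ZMod 2 => ch K s x = 1), finrank K (W a s)) + (a x - a 0).rank)
        ≤ ∑ _x : Fin k → ZMod 2, n := Finset.sum_le_sum fun x _ => ker_ge a h2 x
  rw [Finset.sum_add_distrib] at h4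
  have h5 : ∑ x : Fin k → ZMod 2, (∑ s ∈ Finset.univ.filter
      (fun s : Fin k → ZMod 2 => ch K s x = 1), finrank K (W a s)) =
      ∑ s, ((Finset.univ : Finset (Fin k → ZMod 2)).filter (fun x => ch K s x = 1)).card
        * finrank K (W a s) := by
    simp only [Finset.sum_filter]
    rw [Finset.sum_comm]
    refine Finset.sum_congr rfl fun s _ => ?_
    rw [← Finset.sum_filter, Finset.sum_const, smul_eq_mul]
  have h6 : 2 ^ k * ∑ s, finrank K (W a s) ≤ 2 * ∑ s : Fin k → ZMod 2,
      ((Finset.univ : Finset (Fin k → ZMod 2)).filter (fun x => ch K s x = 1)).card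
        * finrank K (W a s) := by
    rw [Finset.mul_sum, Finset.mul_sum]
    refine Finset.sum_le_sum fun s _ => ?_
    rw [← mul_assoc]
    exact Nat.mul_le_mul_right _ (half_le (K := K) s)
  rw [h5] at h4
  have h7 : ∑ _x : Fin k → ZMod 2, n = 2 ^ k * n := by
    rw [Finset.sum_const, Finset.card_univ, Fintype.card_fun, ZMod.card, Fintype.card_fin,
      smul_eq_mul]
  rw [h7] at h4
  have h8 : 2 ^ k * n ≤ 2 ^ k * (∑ s, finrank K (W a s))
      + 2 ^ k * ∑ x, ∑ y, (a x * a y - a (x + y)).rank := by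
    rw [← mul_add]
    exact Nat.mul_le_mul_left _ (h1.trans (Nat.add_le_add_right h3 _))
  omega

end main

end LSThreshold
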